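import Pool.Agent.helper82.CF.Spec

/-!
# cf:NZT  translation of zeros
-/

set_option autoImplicit false

open Complex MeasureTheory Set

namespace Pool.Agent.CF

theorem NZT_mz (f : ℂ → ℂ) (a z : ℂ) : mz (fun z => f (z + a)) z = mz f (z + a) := by
  have h : analyticOrderAt (f ∘ fun z => z + a) z = analyticOrderAt f (z + a) :=
    analyticOrderAt_comp_of_deriv_ne_zero (g := fun z => z + a) (by fun_prop) (by simp)
  unfold mz analyticOrderNatAt
  have h' : analyticOrderAt (fun z => f (z + a)) z = analyticOrderAt f (z + a) := h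
  rw [h']

theorem NZT : NZT_stmt := by
  intro f a S
  unfold NZ
  rw [← finsum_comp_equiv (Equiv.addRight a) (f := fun z => S.indicator (mz f) z)]
  refine finsum_congr fun z => ?_
  simp only [Equiv.coe_addRight]
  by_cases h : z + a ∈ S
  · rw [indicator_of_mem h, indicator_of_mem (show z ∈ {z | z + a ∈ S} from h), NZT_mz]
  · rw [indicator_of_notMem h, indicator_of_notMem (show z ∉ {z | z + a ∈ S} from h)]

end Pool.Agent.CF
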